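import Pool.Agent.X208.CM.Diff

set_option autoImplicit false

namespace Pool.Agent.Results.MP_ad7a55_nt.AlmostAllSpecialPoints

open Pool.Agent.X208.CM

theorem result : OneSequence ∧ ManySequences := ⟨oneSequence, manySequences⟩

end Pool.Agent.Results.MP_ad7a55_nt.AlmostAllSpecialPoints
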