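import Pool.Agent.X264.EQ.Main

/-!
# Equidistribution on products of modular curves: higher levels and dimensions suffice
-/

set_option autoImplicit false

open Pool.Agent.X264.EQ

namespace Pool.Agent.Results.MP_ad7a55_nt.HigherLevelsAndDimensions

universe u

/-- **Higher levels and dimensions.** Equidistribution of the Galois orbits of generic sequences of
special points on a product of modular curves `X` follows from the same statement on one finite cover of
one product `X × R`. Hence Q1 for all `X` follows from Q1 for any cofinal class, for example the
`Y(N)^n` with `n ≥ n₀` and `N₀` dividing `N`. -/
theorem result (T : Sys.{u}) (hT : T.IsKnown) (C : T.Va → Prop) (hC : T.IsCofinal C) :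
    (∀ S, T.Equidistribution S) ↔ ∀ S, C S → T.Equidistribution S :=
  Sys.main hT C hC

end Pool.Agent.Results.MP_ad7a55_nt.HigherLevelsAndDimensions
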