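import Pool.Agent.X208.MX.More

/-! MP_ad7a55_nt (Q1, partial): from pairs of special points to tuples, few exceptions at each step. -/

set_option autoImplicit false

namespace Pool.Agent.Results.MP_ad7a55_nt.OneMoreSpecialPoint

open Pool.Agent.X208.MX

theorem result : OneMoreAll := oneMoreAll

end Pool.Agent.Results.MP_ad7a55_nt.OneMoreSpecialPoint
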